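import Pool.Agent.helper47.SC.Spec

/-!
# MP_0015b7, row LMX: the maximum principle in an annulus with a logarithm
-/

open scoped Topology ContDiff
open Set Filter Metric MeasureTheory
open Pool.Agent.helper90.KMMP (levi hess)

namespace Pool.Agent.SC

/-- a function of one real variable with positive second derivative has no local maximum -/
theorem LMX_line {φ : ℝ → ℝ} (hc : ContinuousAt φ 0) (h2 : 0 < deriv (deriv φ) 0)
    (hm : IsLocalMax φ 0) : False := by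
  have h1 : deriv φ 0 = 0 := hm.deriv_eq_zero
  have h3 : IsLocalMin φ 0 := isLocalMin_of_deriv_deriv_pos h2 h1 hc
  have h4 : φ =ᶠ[𝓝 0] fun _ => φ 0 := by
    filter_upwards [hm, h3] with x hx hx'
    exact le_antisymm hx hx'
  have h5 : deriv φ =ᶠ[𝓝 0] deriv fun _ => φ 0 := h4.deriv
  have h6 := h5.deriv_eq
  rw [h6] at h2
  simp at h2

/-- a function with positive Levi form has no local maximum -/
theorem LMX_noMax {H : ℂ → ℝ} {z : ℂ} (hc : ContDiffAt ℝ 2 H z) (hl : 0 < levi H z 1)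
    (hm : IsLocalMax H z) : False := by
  rw [Pool.Agent.helper90.KMMP.levi_eq_deriv hc] at hl
  have key : ∀ a : ℂ, ¬ 0 < deriv (deriv fun s : ℝ => H (z + ((s : ℂ) * a) • 1)) 0 := by
    intro a h2
    have hγ : ContinuousAt (fun s : ℝ => z + ((s : ℂ) * a) • (1 : ℂ)) 0 := by fun_prop
    have h0 : (fun s : ℝ => z + ((s : ℂ) * a) • (1 : ℂ)) 0 = z := by simp
    have hcz : ContinuousAt H ((fun s : ℝ => z + ((s : ℂ) * a) • (1 : ℂ)) 0) := by
      rw [h0]; exact hc.continuousAt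
    refine LMX_line (φ := fun s : ℝ => H (z + ((s : ℂ) * a) • 1)) ?_ h2 ?_
    · exact ContinuousAt.comp (g := H) hcz hγ
    · have h3 : ∀ᶠ w in 𝓝 ((fun s : ℝ => z + ((s : ℂ) * a) • (1 : ℂ)) 0), H w ≤ H z := by
        rw [h0]; exact hm
      have h4 := hγ.eventually h3
      filter_upwards [h4] with s hs
      simpa using hs
  have k1 := key 1
  have k2 := key Complex.I
  rw [not_lt] at k1 k2
  linarith

/-- no interior maximum of `g + δ ‖z‖² - ε log ‖z‖` -/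
theorem LMX_int {g : ℂ → ℝ} (hg : ContDiff ℝ 2 g) (hl : ∀ z v, 0 ≤ levi g z v) {δ ε : ℝ}
    (hδ : 0 < δ) {z₁ : ℂ} (hz : z₁ ≠ 0)
    (hm : IsLocalMax (fun z : ℂ => g z + δ * ‖z‖ ^ 2 - ε * Real.log ‖z‖) z₁) : False := by
  have hf : AnalyticAt ℂ (fun z : ℂ => Complex.log (z * z₁⁻¹)) z₁ := by
    have h1 : z₁ * z₁⁻¹ ∈ Complex.slitPlane := by
      rw [mul_inv_cancel₀ hz]
      exact Complex.one_mem_slitPlane
    exact AnalyticAt.clog (by fun_prop) h1
  have hre : ContDiffAt ℝ 2 (fun z : ℂ => (Complex.log (z * z₁⁻¹)).re) z₁ :=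
    Pool.Agent.helper90.KMMP.contDiffAt_re_comp hf
  have hn : ContDiffAt ℝ 2 (fun z : ℂ => ‖z‖ ^ 2) z₁ := (contDiff_norm_sq ℝ).contDiffAt
  have c1 : ContDiffAt ℝ 2 (fun z : ℂ => δ * ‖z‖ ^ 2) z₁ := contDiffAt_const.mul hn
  have c2 : ContDiffAt ℝ 2 (fun z : ℂ => ε * (Complex.log (z * z₁⁻¹)).re) z₁ :=
    contDiffAt_const.mul hre
  have c3 : ContDiffAt ℝ 2 (fun z : ℂ => g z + δ * ‖z‖ ^ 2) z₁ := hg.contDiffAt.add c1
  have c4 : ContDiffAt ℝ 2
      (fun z : ℂ => g z + δ * ‖z‖ ^ 2 - ε * (Complex.log (z * z₁⁻¹)).re) z₁ := c3.sub c2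
  refine LMX_noMax c4 ?_ ?_
  · rw [Pool.Agent.helper90.KMMP.levi_sub (u := fun z : ℂ => g z + δ * ‖z‖ ^ 2)
      (v := fun z : ℂ => ε * (Complex.log (z * z₁⁻¹)).re) c3 c2,
      Pool.Agent.helper90.KMMP.levi_add (u := g) (v := fun z : ℂ => δ * ‖z‖ ^ 2) hg.contDiffAt c1,
      Pool.Agent.helper90.KMMP.levi_const_mul (u := fun z : ℂ => ‖z‖ ^ 2) δ hn,
      Pool.Agent.helper90.KMMP.levi_const_mul (u := fun z : ℂ => (Complex.log (z * z₁⁻¹)).re) ε hre,
      Pool.Agent.helper90.KMMP.levi_normSq, Pool.Agent.helper90.KMMP.levi_re_comp hf]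
    have := hl z₁ 1
    rw [norm_one]
    nlinarith
  · have h0 : ∀ᶠ z in 𝓝 z₁, z ≠ 0 := isOpen_ne.mem_nhds hz
    have e : ∀ z : ℂ, z ≠ 0 → (Complex.log (z * z₁⁻¹)).re = Real.log ‖z‖ - Real.log ‖z₁‖ := by
      intro z hz0
      rw [Complex.log_re, norm_mul, norm_inv, Real.log_mul (norm_ne_zero_iff.2 hz0)
        (inv_ne_zero (norm_ne_zero_iff.2 hz)), Real.log_inv]
      ring
    have hm' : ∀ᶠ z in 𝓝 z₁, g z + δ * ‖z‖ ^ 2 - ε * Real.log ‖z‖ ≤
        g z₁ + δ * ‖z₁‖ ^ 2 - ε * Real.log ‖z₁‖ := hm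
    have : ∀ᶠ z in 𝓝 z₁, g z + δ * ‖z‖ ^ 2 - ε * (Complex.log (z * z₁⁻¹)).re ≤
        g z₁ + δ * ‖z₁‖ ^ 2 - ε * (Complex.log (z₁ * z₁⁻¹)).re := by
      filter_upwards [h0, hm'] with z hz0 hz1
      rw [e z hz0, e z₁ hz]
      linarith
    exact this

theorem LMX : LMX_stmt := by
  intro g A C hg hl hC hA
  -- the estimate on the annulus
  have main : ∀ δ ε R : ℝ, 0 < δ → 1 ≤ R → ∀ z : ℂ, 1 ≤ ‖z‖ → ‖z‖ ≤ R →
      g z + δ * ‖z‖ ^ 2 - ε * Real.log ‖z‖ ≤ max (A + δ) (C + δ * R ^ 2 - ε * Real.log R) := by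
    intro δ ε R hδ hR z hz1 hzR
    set K : Set ℂ := {z : ℂ | 1 ≤ ‖z‖ ∧ ‖z‖ ≤ R} with hK
    have hKc : IsCompact K := by
      have h1 : K = closedBall 0 R ∩ {z : ℂ | 1 ≤ ‖z‖} := by
        ext w
        simp only [hK, mem_setOf_eq, mem_inter_iff, mem_closedBall_zero_iff]
        exact and_comm
      rw [h1]
      exact (isCompact_closedBall 0 R).inter_right (isClosed_le continuous_const continuous_norm)
    have hcont : ContinuousOn (fun z : ℂ => g z + δ * ‖z‖ ^ 2 - ε * Real.log ‖z‖) K := by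
      refine ContinuousOn.sub (Continuous.continuousOn ?_) (ContinuousOn.mul continuousOn_const ?_)
      · exact hg.continuous.add (continuous_const.mul (continuous_norm.pow 2))
      · refine ContinuousOn.log continuous_norm.continuousOn ?_
        intro w hw
        have : 1 ≤ ‖w‖ := hw.1
        linarith
    obtain ⟨z₁, hz₁, hmax⟩ := hKc.exists_isMaxOn ⟨z, hz1, hzR⟩ hcont
    have hle := hmax (show z ∈ K from ⟨hz1, hzR⟩)
    have hle' : g z + δ * ‖z‖ ^ 2 - ε * Real.log ‖z‖ ≤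
        g z₁ + δ * ‖z₁‖ ^ 2 - ε * Real.log ‖z₁‖ := hle
    refine hle'.trans ?_
    rcases eq_or_lt_of_le hz₁.1 with h1 | h1
    · refine le_trans ?_ (le_max_left _ _)
      rw [← h1, Real.log_one]
      have := hA z₁ h1.symm
      linarith
    rcases eq_or_lt_of_le hz₁.2 with h2 | h2
    · refine le_trans ?_ (le_max_right _ _)
      rw [h2]
      have := hC z₁
      linarith
    exfalso
    refine LMX_int (ε := ε) hg hl hδ (z₁ := z₁) ?_ ?_
    · intro h0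
      rw [h0, norm_zero] at h1
      linarith
    · have hn : K ∈ 𝓝 z₁ := by
        have e1 : {w : ℂ | 1 < ‖w‖} ∈ 𝓝 z₁ := (isOpen_lt continuous_const continuous_norm).mem_nhds h1
        have e2 : {w : ℂ | ‖w‖ < R} ∈ 𝓝 z₁ := (isOpen_lt continuous_norm continuous_const).mem_nhds h2
        filter_upwards [e1, e2] with w hw1 hw2
        exact ⟨le_of_lt hw1, le_of_lt hw2⟩
      exact hmax.isLocalMax hn
  intro z hz
  by_contra hcon
  rw [not_le] at hcon
  set η := g z - A with hη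
  have hη0 : 0 < η := by rw [hη]; linarith
  have hlog : 0 ≤ Real.log ‖z‖ := Real.log_nonneg hz
  obtain ⟨ε, hε, hε1⟩ : ∃ ε : ℝ, 0 < ε ∧ ε * Real.log ‖z‖ < η / 4 := by
    refine ⟨η / 8 / (Real.log ‖z‖ + 1), by positivity, ?_⟩
    have h1 : η / 8 / (Real.log ‖z‖ + 1) * Real.log ‖z‖ ≤ η / 8 := by
      rw [div_mul_eq_mul_div, div_le_iff₀ (by linarith)]
      nlinarith
    linarith
  set R := max ‖z‖ (Real.exp (|C - A| / ε)) with hR
  have hRz : ‖z‖ ≤ R := le_max_left _ _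
  have hR1 : 1 ≤ R := hz.trans hRz
  have hRlog : |C - A| ≤ ε * Real.log R := by
    have h1 : |C - A| / ε ≤ Real.log R := by
      rw [Real.le_log_iff_exp_le (by linarith)]
      exact le_max_right _ _
    rw [div_le_iff₀ hε] at h1
    linarith
  obtain ⟨δ, hδ, hδ1⟩ : ∃ δ : ℝ, 0 < δ ∧ δ * R ^ 2 < η / 4 := by
    refine ⟨η / 8 / R ^ 2, by positivity, ?_⟩
    have : η / 8 / R ^ 2 * R ^ 2 = η / 8 := div_mul_cancel₀ _ (by positivity)
    rw [this]
    linarith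
  have hR2 : 1 ≤ R ^ 2 := one_le_pow₀ hR1
  have hm := main δ ε R hδ hR1 z hz hRz
  have hpos : 0 ≤ δ * ‖z‖ ^ 2 := by positivity
  have hδA : δ ≤ δ * R ^ 2 := by nlinarith
  have habs := le_abs_self (C - A)
  rcases le_max_iff.1 hm with h | h
  · linarith
  · linarith

end Pool.Agent.SC
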